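import Pool.Agent.K6.H34.LU.C

/-!
# Valuations of large rank
-/

set_option autoImplicit false
set_option linter.unusedVariables false
set_option linter.unusedSectionVars false

universe u

namespace Pool.Agent.K6.H34.LU

open IsLocalRing Pool.Agent.W418.LU2 Pool.Agent.TH188.QS Pool.Agent.H176.DT Pool.Agent.R187.CT

/-- A valuation ring over a field `k` in whose complement there is an element. -/
lemma trdeg_ge {k F : Type u} [Field k] [Field F] [Algebra k F] (W : ValuationSubring F)
    {ι : Type u} (t : ι → F)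
    (ht : ∀ P : MvPolynomial ι k, P ≠ 0 →
      MvPolynomial.aeval t P ∈ W ∧ (MvPolynomial.aeval t P)⁻¹ ∈ W ∧ MvPolynomial.aeval t P ≠ 0)
    {x : F} (hx : x ∉ W) : Cardinal.mk ι + 1 ≤ Algebra.trdeg k F := by
  classical
  have hai : AlgebraicIndependent k t := by
    rw [algebraicIndependent_iff]
    intro P hP
    by_contra h0
    exact (ht P h0).2.2 hP
  let D : IntermediateField k F := IntermediateField.adjoin k (Set.range t)
  have hDW : ∀ z : D, (z : F) ∈ W := by
    rintro ⟨z, hz⟩
    have hz' : z ∈ IntermediateField.adjoin k (Set.range t) := hz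
    rw [IntermediateField.mem_adjoin_range_iff] at hz'
    obtain ⟨P, Q, hPQ⟩ := hz'
    change z ∈ _
    by_cases hP : P = 0
    · rw [hPQ, hP, map_zero, zero_div]
      exact W.zero_mem
    by_cases hQ : Q = 0
    · rw [hPQ, hQ, map_zero, div_zero]
      exact W.zero_mem
    · rw [hPQ, div_eq_mul_inv]
      exact W.mul_mem _ _ (ht P hP).1 (ht Q hQ).2.1
  have hxt : Transcendental D x := by
    intro hal
    apply hx
    let φ : D →+* W := (algebraMap D F).codRestrict W.toSubring hDW
    let _ : Algebra D W := φ.toAlgebra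
    have : IsScalarTower D W F := IsScalarTower.of_algebraMap_eq fun z => rfl
    have h1 : IsIntegral W x := hal.isIntegral.tower_top
    obtain ⟨y, hy⟩ := IsIntegrallyClosed.isIntegral_iff.1 h1
    rw [← hy]
    exact y.2
  have htr : Algebra.Transcendental D F := ⟨x, hxt⟩
  have h1 : 1 ≤ Algebra.trdeg D F := Cardinal.one_le_iff_pos.2 (_root_.trdeg_pos D F)
  have h2 : Algebra.trdeg k D + Algebra.trdeg D F = Algebra.trdeg k F := _root_.trdeg_add_eq k D
  have h3 : Cardinal.mk ι ≤ Algebra.trdeg k D := by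
    let t' : ι → D := fun i => ⟨t i, IntermediateField.subset_adjoin _ _ ⟨i, rfl⟩⟩
    have h4 : AlgebraicIndependent k t' := by
      refine AlgebraicIndependent.of_comp D.val ?_
      exact hai
    exact h4.cardinalMk_le_trdeg
  rw [← h2]
  exact add_le_add h3 h1

section res

variable {k K : Type u} [Field k] [Field K] [Algebra k K]

/-- Abhyankar's inequality. -/
lemma resTr_lt {V V₁ : ValuationSubring K} (hV : V < V₁) (hk : ∀ c : k, algebraMap k K c ∈ V)
    (hk₁ : ∀ c : k, algebraMap k K c ∈ V₁) : resTr V hk + 1 ≤ resTr V₁ hk₁ := by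
  obtain ⟨x, hx₁, hx⟩ := SetLike.exists_of_lt hV
  obtain ⟨s, t, hs, ht⟩ : ∃ (s : Set (ResidueField V)) (t : s → K),
      Cardinal.mk s = resTr V hk ∧ ∀ P : MvPolynomial s k, P ≠ 0 → MvPolynomial.aeval t P ∈ V ∧
        (MvPolynomial.aeval t P)⁻¹ ∈ V ∧ MvPolynomial.aeval t P ≠ 0 := by
    let _ := (resHom V hk).toAlgebra
    obtain ⟨s, hs⟩ := exists_isTranscendenceBasis k (ResidueField V)
    choose l hl using fun w : s => residue_surjective (R := V) (w : ResidueField V)
    refine ⟨s, fun w => ((l w : V) : K), hs.cardinalMk_eq_trdeg, fun P hP => ?_⟩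
    refine unit_of_indep V hk _ (fun w => (l w).2) ?_ P hP
    have h3 : (fun w : s => residue V ⟨((l w : V) : K), (l w).2⟩) =
        (fun w : s => (w : ResidueField V)) := funext fun w => hl w
    rw [h3]
    exact hs.1
  obtain ⟨t', -, ht'⟩ := img_units hV.le hk₁ t ht
  rw [← hs]
  let _ := (resHom V₁ hk₁).toAlgebra
  exact trdeg_ge (img hV.le) t' ht' (x := residue V₁ ⟨x, hx₁⟩) (by
    rw [mem_img hV.le hx₁]
    exact hx)

/-- Intervals of valuation rings with small drop. -/
theorem good_interval {d : ℕ} (hd : LUD.{u} d) (hK : Algebra.trdeg k K < Cardinal.aleph0) (j : ℕ) :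
    ∀ (V V₁ : ValuationSubring K) (hV : V ≤ V₁) (hk : ∀ c : k, algebraMap k K c ∈ V)
      (hk₁ : ∀ c : k, algebraMap k K c ∈ V₁) (a b : ℕ), resTr V₁ hk₁ = a → resTr V hk = b →
      a - b ≤ j → a ≤ b + d → Good (algebraMap k K) V₁ → Good (algebraMap k K) V := by
  have hfin : ∀ (U : ValuationSubring K) (hU : ∀ c : k, algebraMap k K c ∈ U),
      ∃ m : ℕ, resTr U hU = m := fun U hU =>
    Cardinal.lt_aleph0.1 ((resTr_le _ _).trans_lt hK)
  have hlt : ∀ {U U' : ValuationSubring K} (h : U < U') (hU : ∀ c : k, algebraMap k K c ∈ U)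
      (hU' : ∀ c : k, algebraMap k K c ∈ U') {a b : ℕ}, resTr U' hU' = a → resTr U hU = b →
      b < a := by
    intro U U' h hU hU' a b ha hb
    have h1 := resTr_lt h hU hU'
    rw [ha, hb] at h1
    have h2 : b + 1 ≤ a := by exact_mod_cast h1
    exact h2
  induction j with
  | zero =>
    intro V V₁ hV hk hk₁ a b ha hb hab had h1
    rcases hV.eq_or_lt with h | h
    · subst h
      exact h1
    · have h2 := hlt h hk hk₁ ha hb
      omega
  | succ j ih =>
    intro V V₁ hV hk hk₁ a b ha hb hab had h1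
    rcases hV.eq_or_lt with h | h
    · subst h
      exact h1
    by_cases hadj : ∃ U : ValuationSubring K, V < U ∧ U < V₁
    · obtain ⟨U, hU, hU₁⟩ := hadj
      have hkU : ∀ c : k, algebraMap k K c ∈ U := fun c => hU.le (hk c)
      obtain ⟨c, hc⟩ := hfin U hkU
      have h2 := hlt hU hk hkU hc hb
      have h3 := hlt hU₁ hkU hk₁ ha hc
      exact ih V U hU.le hk hkU c b hc hb (by omega) (by omega)
        (ih U V₁ hU₁.le hkU hk₁ a c ha hc (by omega) (by omega) h1)
    · push Not at hadj
      refine good_adj hd hK hV hk hk₁ (fun U hU hU₁ => ?_) ?_ h1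
      · rcases hU.eq_or_lt with h2 | h2
        · exact Or.inl h2.symm
        · right
          rcases hU₁.eq_or_lt with h3 | h3
          · exact h3
          · exact absurd h3 (hadj U h2)
      · rw [ha, hb]
        exact_mod_cast had

/-- Chains of valuations with small steps. -/
theorem good_chain {d : ℕ} (hd : LUD.{u} d) (hK : Algebra.trdeg k K < Cardinal.aleph0)
    (V : ℕ → ValuationSubring K) (h0 : V 0 = ⊤) (hk : ∀ i (c : k), algebraMap k K c ∈ V i)
    (r : ℕ) (hle : ∀ i < r, V (i + 1) ≤ V i)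
    (hdrop : ∀ i < r, resTr (V i) (hk i) ≤ resTr (V (i + 1)) (hk (i + 1)) + d) :
    ∀ i ≤ r, Good (algebraMap k K) (V i) := by
  intro i
  induction i with
  | zero =>
    intro _
    rw [h0]
    exact good_top _
  | succ i ih =>
    intro hi
    obtain ⟨a, ha⟩ := Cardinal.lt_aleph0.1 ((resTr_le (V i) (hk i)).trans_lt hK)
    obtain ⟨b, hb⟩ := Cardinal.lt_aleph0.1 ((resTr_le (V (i + 1)) (hk (i + 1))).trans_lt hK)
    have h1 := hdrop i hi
    rw [ha, hb] at h1
    exact good_interval hd hK (a - b) (V (i + 1)) (V i) (hle i hi) (hk (i + 1)) (hk i) a b ha hb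
      le_rfl (by exact_mod_cast h1) (ih (Nat.le_of_succ_le hi))

/-- Valuations of large rank. -/
theorem good_strict {d : ℕ} (hd : LUD.{u} d) {n : ℕ} (hn : Algebra.trdeg k K = n)
    (V : ℕ → ValuationSubring K) (h0 : V 0 = ⊤) (hk : ∀ i (c : k), algebraMap k K c ∈ V i)
    (r s : ℕ) (hlt : ∀ i < r, V (i + 1) < V i) (hs : (s : Cardinal.{u}) ≤ resTr (V r) (hk r))
    (h : n < r + s + d) : Good (algebraMap k K) (V r) := by
  have hfin : ∀ i, ∃ m : ℕ, resTr (V i) (hk i) = m := by
    intro i
    refine Cardinal.lt_aleph0.1 ((resTr_le _ _).trans_lt ?_)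
    rw [hn]
    exact Cardinal.natCast_lt_aleph0
  choose m hm using hfin
  have h1 : m 0 ≤ n := by
    have h2 := resTr_le (V 0) (hk 0)
    rw [hm, hn] at h2
    exact_mod_cast h2
  have h2 : ∀ i < r, m (i + 1) + 1 ≤ m i := by
    intro i hi
    have h3 := resTr_lt (hlt i hi) (hk (i + 1)) (hk i)
    rw [hm, hm] at h3
    exact_mod_cast h3
  have h3 : ∀ i ≤ r, m i + i ≤ n := by
    intro i
    induction i with
    | zero => exact fun _ => h1
    | succ i ih =>
      intro hi
      have h4 := ih (Nat.le_of_succ_le hi)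
      have h5 := h2 i hi
      omega
  have h4 : ∀ j ≤ r, s + j ≤ m (r - j) := by
    intro j
    induction j with
    | zero =>
      intro _
      rw [hm] at hs
      have h5 : s ≤ m r := by exact_mod_cast hs
      exact h5
    | succ j ih =>
      intro hj
      have h5 := ih (Nat.le_of_succ_le hj)
      have h6 := h2 (r - (j + 1)) (by omega)
      have h7 : r - (j + 1) + 1 = r - j := by omega
      rw [h7] at h6
      omega
  refine good_chain hd (by rw [hn]; exact Cardinal.natCast_lt_aleph0) V h0 hk r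
    (fun i hi => (hlt i hi).le) (fun i hi => ?_) r le_rfl
  rw [hm, hm]
  have h5 := h3 i hi.le
  have h6 := h4 (r - (i + 1)) (Nat.sub_le _ _)
  have h7 : r - (r - (i + 1)) = i + 1 := by omega
  rw [h7] at h6
  have h8 : m i ≤ m (i + 1) + d := by omega
  exact_mod_cast h8

/-- Chains of overrings. -/
lemma exists_chain (V : ValuationSubring K) (r : ℕ) (hr : (r : WithBot ℕ∞) ≤ ringKrullDim V) :
    ∃ (q : ℕ → ValuationSubring K) (r' : ℕ), r ≤ r' ∧ q 0 = ⊤ ∧ q r' = V ∧
      (∀ i, V ≤ q i) ∧ ∀ i < r', q (i + 1) < q i := by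
  classical
  by_cases hr0 : r = 0
  · by_cases hV : V = ⊤
    · exact ⟨fun _ => ⊤, 0, hr0.le, rfl, hV.symm, fun _ => le_top, fun i hi => absurd hi (by omega)⟩
    · refine ⟨fun i => if i = 0 then ⊤ else V, 1, by omega, rfl, rfl, fun i => ?_, fun i hi => ?_⟩
      · dsimp only
        split_ifs
        · exact le_top
        · exact le_rfl
      · have h1 : i = 0 := by omega
        subst h1
        exact lt_top_iff_ne_top.2 hV
  · obtain ⟨l, hl⟩ := Order.le_krullDim_iff.1 hr
    let e := V.primeSpectrumOrderEquiv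
    let p : ℕ → ValuationSubring K := fun i =>
      if h : i < l.length + 1 then (e (OrderDual.toDual (l ⟨i, h⟩))).1 else V
    have hVp : ∀ i, V ≤ p i := by
      intro i
      dsimp only [p]
      split_ifs with h
      · exact (e (OrderDual.toDual (l ⟨i, h⟩))).2
      · exact le_rfl
    have hp : ∀ i < r, p (i + 1) < p i := by
      intro i hi
      have h1 : i < l.length + 1 := by omega
      have h2 : i + 1 < l.length + 1 := by omega
      dsimp only [p]
      rw [dif_pos h1, dif_pos h2]
      have h3 : l ⟨i, h1⟩ < l ⟨i + 1, h2⟩ := l.strictMono (by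
        rw [Fin.lt_def]
        exact Nat.lt_succ_self i)
      have h4 : e (OrderDual.toDual (l ⟨i + 1, h2⟩)) < e (OrderDual.toDual (l ⟨i, h1⟩)) :=
        e.strictMono (OrderDual.toDual_lt_toDual.2 h3)
      exact h4
    refine ⟨fun i => if i = 0 then ⊤ else if i < r then p i else V, r, le_rfl, rfl, ?_, ?_, ?_⟩
    · dsimp only
      rw [if_neg hr0, if_neg (lt_irrefl r)]
    · intro i
      dsimp only
      split_ifs
      · exact le_top
      · exact hVp i
      · exact le_rfl
    · intro i hi
      dsimp only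
      have h1 : (if i + 1 < r then p (i + 1) else V) ≤ p (i + 1) := by
        split_ifs
        · exact le_rfl
        · exact hVp _
      rw [if_neg (Nat.succ_ne_zero i)]
      refine (h1.trans_lt (hp i hi)).trans_le ?_
      split_ifs
      · exact le_top
      · exact le_rfl

end res

end Pool.Agent.K6.H34.LU
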