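import Pool.Agent.K6.H34.LU.B

/-!
# Chains of valuations
-/

set_option autoImplicit false
set_option linter.unusedVariables false
set_option linter.unusedSectionVars false

universe u

namespace Pool.Agent.K6.H34.LU

open IsLocalRing Pool.Agent.W418.LU2 Pool.Agent.TH188.QS Pool.Agent.H176.DT Pool.Agent.R187.CT

section img

variable {K : Type u} [Field K] {V V₁ : ValuationSubring K}

lemma max_mem (h : V ≤ V₁) {z : K} (hz : z ∈ V₁) (h0 : residue V₁ ⟨z, hz⟩ = 0) : z ∈ V := by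
  rw [residue_eq_zero_iff] at h0
  by_contra hV
  have h1 : z⁻¹ ∈ V := (V.mem_or_inv_mem z).resolve_left hV
  have h2 : z ≠ 0 := by
    rintro rfl
    exact hV V.zero_mem
  apply (mem_maximalIdeal _).1 h0
  refine isUnit_iff_exists_inv.2 ⟨⟨z⁻¹, h h1⟩, Subtype.ext ?_⟩
  exact mul_inv_cancel₀ h2

/-- The image of a valuation ring in the residue field. -/
noncomputable def img (h : V ≤ V₁) : ValuationSubring (ResidueField V₁) where
  carrier := {w | ∃ (z : K) (hz : z ∈ V₁), z ∈ V ∧ residue V₁ ⟨z, hz⟩ = w}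
  mul_mem' := by
    rintro _ _ ⟨a, ha, haV, rfl⟩ ⟨b, hb, hbV, rfl⟩
    exact ⟨a * b, V₁.mul_mem _ _ ha hb, V.mul_mem _ _ haV hbV, map_mul (residue V₁) ⟨a, ha⟩ ⟨b, hb⟩⟩
  one_mem' := ⟨1, V₁.one_mem, V.one_mem, map_one (residue V₁)⟩
  add_mem' := by
    rintro _ _ ⟨a, ha, haV, rfl⟩ ⟨b, hb, hbV, rfl⟩
    exact ⟨a + b, V₁.add_mem _ _ ha hb, V.add_mem _ _ haV hbV, map_add (residue V₁) ⟨a, ha⟩ ⟨b, hb⟩⟩
  zero_mem' := ⟨0, V₁.zero_mem, V.zero_mem, map_zero (residue V₁)⟩
  neg_mem' := by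
    rintro _ ⟨a, ha, haV, rfl⟩
    exact ⟨-a, V₁.neg_mem _ ha, V.neg_mem _ haV, map_neg (residue V₁) ⟨a, ha⟩⟩
  mem_or_inv_mem' := by
    intro w
    obtain ⟨⟨z, hz⟩, rfl⟩ := residue_surjective (R := V₁) w
    by_cases h0 : residue V₁ ⟨z, hz⟩ = 0
    · left
      rw [h0]
      exact ⟨0, V₁.zero_mem, V.zero_mem, map_zero (residue V₁)⟩
    rcases V.mem_or_inv_mem z with hV | hV
    · exact Or.inl ⟨z, hz, hV, rfl⟩
    · right
      refine ⟨z⁻¹, h hV, hV, ?_⟩
      refine (inv_eq_of_mul_eq_one_right ?_).symm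
      rw [← map_mul, ← map_one (residue V₁)]
      congr 1
      refine Subtype.ext ?_
      refine mul_inv_cancel₀ ?_
      rintro rfl
      exact h0 (map_zero (residue V₁))

lemma mem_img (h : V ≤ V₁) {z : K} (hz : z ∈ V₁) : residue V₁ ⟨z, hz⟩ ∈ img h ↔ z ∈ V := by
  constructor
  · rintro ⟨z', hz', hV, he⟩
    have h0 : z - z' ∈ V₁ := Subring.sub_mem V₁.toSubring hz hz'
    have h1 : z - z' ∈ V := by
      refine max_mem h h0 ?_
      have h2 : (⟨z - z', h0⟩ : V₁) = ⟨z, hz⟩ - ⟨z', hz'⟩ := rfl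
      rw [h2, map_sub, he, sub_self]
    have h2 : z = (z - z') + z' := by ring
    rw [h2]
    exact V.add_mem _ _ h1 hV
  · intro hV
    exact ⟨z, hz, hV, rfl⟩

lemma cmp_img (h : V ≤ V₁) : Cmp V V₁ (img h) := by
  intro z
  constructor
  · intro hz
    exact ⟨h hz, (mem_img h _).2 hz⟩
  · rintro ⟨hz, hw⟩
    exact (mem_img h hz).1 hw

end img

section res

variable {k K : Type u} [Field k] [Field K] [Algebra k K]

/-- The embedding of `k` in the residue field. -/
noncomputable def resHom (V : ValuationSubring K) (h : ∀ c : k, algebraMap k K c ∈ V) :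
    k →+* ResidueField V :=
  (residue V).comp ((algebraMap k K).codRestrict V.toSubring h)

/-- The transcendence degree of the residue field. -/
noncomputable def resTr (V : ValuationSubring K) (h : ∀ c : k, algebraMap k K c ∈ V) :
    Cardinal.{u} :=
  @Algebra.trdeg k (ResidueField V) _ _ (resHom V h).toAlgebra

/-- The ring `V` is an algebra over `k`. -/
@[reducible] noncomputable def algV (V : ValuationSubring K) (h : ∀ c : k, algebraMap k K c ∈ V) :
    Algebra k V :=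
  ((algebraMap k K).codRestrict V.toSubring h).toAlgebra

lemma aeval_V (V : ValuationSubring K) (h : ∀ c : k, algebraMap k K c ∈ V) {ι : Type*}
    (t : ι → K) (ht : ∀ i, t i ∈ V) (P : MvPolynomial ι k) :
    ∃ hP : MvPolynomial.aeval t P ∈ V, (⟨MvPolynomial.aeval t P, hP⟩ : V) =
      MvPolynomial.eval₂ ((algebraMap k K).codRestrict V.toSubring h) (fun i => (⟨t i, ht i⟩ : V))
        P := by
  have h1 : MvPolynomial.aeval t P = V.subtype (MvPolynomial.eval₂
      ((algebraMap k K).codRestrict V.toSubring h) (fun i => (⟨t i, ht i⟩ : V)) P) := by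
    rw [MvPolynomial.hom_eval₂]
    rfl
  have h2 : MvPolynomial.aeval t P ∈ V := by
    rw [h1]
    exact (MvPolynomial.eval₂ ((algebraMap k K).codRestrict V.toSubring h)
      (fun i => (⟨t i, ht i⟩ : V)) P).2
  exact ⟨h2, Subtype.ext h1⟩

lemma aeval_res (V : ValuationSubring K) (h : ∀ c : k, algebraMap k K c ∈ V) {ι : Type*}
    (t : ι → K) (ht : ∀ i, t i ∈ V) (P : MvPolynomial ι k) :
    ∃ hP : MvPolynomial.aeval t P ∈ V, residue V ⟨MvPolynomial.aeval t P, hP⟩ =
      MvPolynomial.eval₂ (resHom V h) (fun i => residue V ⟨t i, ht i⟩) P := by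
  obtain ⟨hP, h1⟩ := aeval_V V h t ht P
  refine ⟨hP, ?_⟩
  rw [h1, MvPolynomial.hom_eval₂]
  rfl

/-- Lifts of algebraically independent elements of the residue field. -/
lemma unit_of_indep (V : ValuationSubring K) (h : ∀ c : k, algebraMap k K c ∈ V) {ι : Type*}
    (t : ι → K) (ht : ∀ i, t i ∈ V)
    (hi : @AlgebraicIndependent ι k (ResidueField V) (fun i => residue V ⟨t i, ht i⟩) _ _
      (resHom V h).toAlgebra) (P : MvPolynomial ι k) (hP : P ≠ 0) :
    MvPolynomial.aeval t P ∈ V ∧ (MvPolynomial.aeval t P)⁻¹ ∈ V ∧ MvPolynomial.aeval t P ≠ 0 := by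
  obtain ⟨h1, h2⟩ := aeval_res V h t ht P
  have h3 : residue V ⟨MvPolynomial.aeval t P, h1⟩ ≠ 0 := by
    rw [h2]
    let _ := (resHom V h).toAlgebra
    intro h0
    exact hP ((algebraicIndependent_iff.1 hi) P h0)
  have h4 : IsUnit (⟨MvPolynomial.aeval t P, h1⟩ : V) := by
    by_contra h5
    exact h3 ((residue_eq_zero_iff _).2 ((mem_maximalIdeal _).2 h5))
  obtain ⟨b, hb⟩ := isUnit_iff_exists_inv.1 h4
  have h5 : MvPolynomial.aeval t P * b = 1 := congrArg Subtype.val hb
  have h6 : MvPolynomial.aeval t P ≠ 0 := left_ne_zero_of_mul_eq_one h5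
  refine ⟨h1, ?_, h6⟩
  rw [← eq_inv_of_mul_eq_one_right h5]
  exact b.2

/-- The transcendence degree of the residue field is at most that of the field. -/
lemma resTr_le (V : ValuationSubring K) (h : ∀ c : k, algebraMap k K c ∈ V) :
    resTr V h ≤ Algebra.trdeg k K := by
  let _ := (resHom V h).toAlgebra
  obtain ⟨s, hs⟩ := exists_isTranscendenceBasis k (ResidueField V)
  choose l hl using fun w : s => residue_surjective (R := V) (w : ResidueField V)
  have h1 : AlgebraicIndependent k (fun w : s => ((l w : V) : K)) := by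
    rw [algebraicIndependent_iff]
    intro P hP
    by_contra h0
    refine (unit_of_indep V h (fun w : s => ((l w : V) : K)) (fun w => (l w).2) ?_ P h0).2.2 hP
    have h2 : (fun w : s => residue V ⟨((l w : V) : K), (l w).2⟩) = fun w : s => (w : ResidueField V) :=
      funext fun w => hl w
    rw [h2]
    exact hs.1
  have h2 := hs.cardinalMk_eq_trdeg
  change Algebra.trdeg k (ResidueField V) ≤ _
  rw [← h2]
  exact h1.cardinalMk_le_trdeg

/-- Finitely many elements whose residues form a transcendence basis. -/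
lemma exists_basis (V : ValuationSubring K) (h : ∀ c : k, algebraMap k K c ∈ V)
    (hfin : resTr V h < Cardinal.aleph0) : ∃ (m : ℕ) (t : Fin m → K), resTr V h = m ∧
      ∀ P : MvPolynomial (Fin m) k, P ≠ 0 → MvPolynomial.aeval t P ∈ V ∧
        (MvPolynomial.aeval t P)⁻¹ ∈ V ∧ MvPolynomial.aeval t P ≠ 0 := by
  let _ := (resHom V h).toAlgebra
  obtain ⟨s, hs⟩ := exists_isTranscendenceBasis k (ResidueField V)
  have h2 : Cardinal.mk s = resTr V h := hs.cardinalMk_eq_trdeg
  rw [← h2, Cardinal.lt_aleph0_iff_finite] at hfin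
  have := Fintype.ofFinite s
  let e := (Fintype.equivFin s).symm
  choose l hl using fun w : s => residue_surjective (R := V) (w : ResidueField V)
  refine ⟨Fintype.card s, fun i => ((l (e i) : V) : K), ?_, fun P hP => ?_⟩
  · rw [← h2, Cardinal.mk_fintype]
  · refine unit_of_indep V h _ (fun i => (l (e i)).2) ?_ P hP
    have h3 : (fun i => residue V ⟨((l (e i) : V) : K), (l (e i)).2⟩) =
        (fun w : s => (w : ResidueField V)) ∘ e := funext fun i => hl (e i)
    rw [h3]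
    exact hs.1.comp _ e.injective

/-- Polynomials in the image. -/
lemma img_units {V V₁ : ValuationSubring K} (hV : V ≤ V₁) (h : ∀ c : k, algebraMap k K c ∈ V₁)
    {ι : Type*} (t : ι → K) (ht : ∀ P : MvPolynomial ι k, P ≠ 0 → MvPolynomial.aeval t P ∈ V ∧
        (MvPolynomial.aeval t P)⁻¹ ∈ V ∧ MvPolynomial.aeval t P ≠ 0) :
    ∃ t' : ι → ResidueField V₁, (∀ i, ∃ hi : t i ∈ V₁, t' i = residue V₁ ⟨t i, hi⟩) ∧
      letI := (resHom V₁ h).toAlgebra
      ∀ P : MvPolynomial ι k, P ≠ 0 → MvPolynomial.aeval t' P ∈ img hV ∧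
        (MvPolynomial.aeval t' P)⁻¹ ∈ img hV ∧ MvPolynomial.aeval t' P ≠ 0 := by
  have htV : ∀ i, t i ∈ V := by
    intro i
    have h := (ht (MvPolynomial.X i) (MvPolynomial.X_ne_zero i)).1
    rwa [MvPolynomial.aeval_X] at h
  refine ⟨fun i => residue V₁ ⟨t i, hV (htV i)⟩, fun i => ⟨hV (htV i), rfl⟩, ?_⟩
  let _ := (resHom V₁ h).toAlgebra
  intro P hP
  obtain ⟨h1, h2⟩ := aeval_res V₁ h t (fun i => hV (htV i)) P
  have h3 : MvPolynomial.aeval (fun i => residue V₁ ⟨t i, hV (htV i)⟩) P =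
      residue V₁ ⟨MvPolynomial.aeval t P, h1⟩ := h2.symm
  obtain ⟨h4, h5, h6⟩ := ht P hP
  have h7 : residue V₁ ⟨MvPolynomial.aeval t P, h1⟩ *
      residue V₁ ⟨(MvPolynomial.aeval t P)⁻¹, hV h5⟩ = 1 := by
    rw [← map_mul, ← map_one (residue V₁)]
    congr 1
    exact Subtype.ext (mul_inv_cancel₀ h6)
  rw [h3]
  refine ⟨(mem_img hV h1).2 h4, ?_, left_ne_zero_of_mul_eq_one h7⟩
  rw [← eq_inv_of_mul_eq_one_right h7]
  exact (mem_img hV _).2 h5

/-- Valuation rings over the image. -/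
lemma img_rank {V V₁ : ValuationSubring K} (hV : V ≤ V₁)
    (hadj : ∀ U : ValuationSubring K, V ≤ U → U ≤ V₁ → U = V ∨ U = V₁)
    (W : ValuationSubring (ResidueField V₁)) (hW : img hV ≤ W) : W = img hV ∨ W = ⊤ := by
  let U : ValuationSubring K :=
    { carrier := {z | ∃ hz : z ∈ V₁, residue V₁ ⟨z, hz⟩ ∈ W}
      mul_mem' := by
        rintro a b ⟨ha, haW⟩ ⟨hb, hbW⟩
        refine ⟨V₁.mul_mem _ _ ha hb, ?_⟩
        have h1 : residue V₁ ⟨a * b, V₁.mul_mem _ _ ha hb⟩ =
            residue V₁ ⟨a, ha⟩ * residue V₁ ⟨b, hb⟩ := map_mul (residue V₁) ⟨a, ha⟩ ⟨b, hb⟩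
        rw [h1]
        exact W.mul_mem _ _ haW hbW
      one_mem' := ⟨V₁.one_mem, by
        have h1 : residue V₁ ⟨1, V₁.one_mem⟩ = 1 := map_one (residue V₁)
        rw [h1]
        exact W.one_mem⟩
      add_mem' := by
        rintro a b ⟨ha, haW⟩ ⟨hb, hbW⟩
        refine ⟨V₁.add_mem _ _ ha hb, ?_⟩
        have h1 : residue V₁ ⟨a + b, V₁.add_mem _ _ ha hb⟩ =
            residue V₁ ⟨a, ha⟩ + residue V₁ ⟨b, hb⟩ := map_add (residue V₁) ⟨a, ha⟩ ⟨b, hb⟩
        rw [h1]
        exact W.add_mem _ _ haW hbW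
      zero_mem' := ⟨V₁.zero_mem, by
        have h1 : residue V₁ ⟨0, V₁.zero_mem⟩ = 0 := map_zero (residue V₁)
        rw [h1]
        exact W.zero_mem⟩
      neg_mem' := by
        rintro a ⟨ha, haW⟩
        refine ⟨V₁.neg_mem _ ha, ?_⟩
        have h1 : residue V₁ ⟨-a, V₁.neg_mem _ ha⟩ = -residue V₁ ⟨a, ha⟩ :=
          map_neg (residue V₁) ⟨a, ha⟩
        rw [h1]
        exact W.neg_mem _ haW
      mem_or_inv_mem' := by
        intro z
        rcases V.mem_or_inv_mem z with h | h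
        · exact Or.inl ⟨hV h, hW ((mem_img hV (hV h)).2 h)⟩
        · exact Or.inr ⟨hV h, hW ((mem_img hV (hV h)).2 h)⟩ }
  have hU : ∀ {z : K} (hz : z ∈ V₁), residue V₁ ⟨z, hz⟩ ∈ W ↔ z ∈ U :=
    fun {z} hz => ⟨fun h => ⟨hz, h⟩, fun ⟨_, h⟩ => h⟩
  rcases hadj U (fun z hz => ⟨hV hz, hW ((mem_img hV (hV hz)).2 hz)⟩) (fun z hz => hz.1) with h | h
  · left
    refine le_antisymm (fun w hw => ?_) hW
    obtain ⟨⟨z, hz⟩, rfl⟩ := residue_surjective (R := V₁) w
    rw [mem_img hV hz, ← h]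
    exact (hU hz).1 hw
  · right
    refine top_unique fun w _ => ?_
    obtain ⟨⟨z, hz⟩, rfl⟩ := residue_surjective (R := V₁) w
    rw [hU hz, h]
    exact hz

/-- The residue field of the image. -/
lemma img_resTr {V V₁ : ValuationSubring K} (hV : V ≤ V₁) (hk : ∀ c : k, algebraMap k K c ∈ V)
    (hk₁ : ∀ c : k, algebraMap k K c ∈ V₁) :
    letI := (resHom V₁ hk₁).toAlgebra
    ∃ hk' : ∀ c : k, algebraMap k (ResidueField V₁) c ∈ img hV,
      @Algebra.trdeg k (ResidueField (img hV)) _ _ ((residue (img hV)).comp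
        ((algebraMap k (ResidueField V₁)).codRestrict (img hV).toSubring hk')).toAlgebra ≤
      resTr V hk := by
  let _ := (resHom V₁ hk₁).toAlgebra
  have hk' : ∀ c : k, algebraMap k (ResidueField V₁) c ∈ img hV := fun c =>
    (mem_img hV (hk₁ c)).2 (hk c)
  refine ⟨hk', ?_⟩
  let g₀ : V →+* img hV :=
    ((residue V₁).comp (Subring.inclusion (S := V.toSubring) (T := V₁.toSubring) hV)).codRestrict
      (img hV).toSubring fun z => (mem_img hV (hV z.2)).2 z.2
  let g : V →+* ResidueField (img hV) := (residue (img hV)).comp g₀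
  have hloc : IsLocalHom g := by
    refine ⟨fun a ha => ?_⟩
    have h1 : g a ≠ 0 := ha.ne_zero
    have h2 : IsUnit (g₀ a) := by
      by_contra h3
      exact h1 ((residue_eq_zero_iff _).2 ((mem_maximalIdeal _).2 h3))
    obtain ⟨b, hb⟩ := isUnit_iff_exists_inv.1 h2
    have hb' : residue V₁ ⟨a, hV a.2⟩ * (b : ResidueField V₁) = 1 := congrArg Subtype.val hb
    obtain ⟨z, hz, hzV, hzb⟩ := b.2
    rw [← hzb, ← map_mul] at hb'
    have h4 : IsUnit ((⟨a, hV a.2⟩ : V₁) * ⟨z, hz⟩) := by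
      by_contra h5
      have h6 : residue V₁ ((⟨a, hV a.2⟩ : V₁) * ⟨z, hz⟩) = 0 :=
        (residue_eq_zero_iff _).2 ((mem_maximalIdeal _).2 h5)
      rw [h6] at hb'
      exact zero_ne_one hb'
    -- the product is a unit of `V` since it is congruent to `1`
    have h7 : (a : K) * z ≠ 0 := by
      intro h0
      apply h4.ne_zero
      exact Subtype.ext h0
    have h8 : ((a : K) * z)⁻¹ ∈ V₁ := by
      obtain ⟨c, hc⟩ := isUnit_iff_exists_inv.1 h4
      have h9 : ((a : K) * z) * c = 1 := congrArg Subtype.val hc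
      rw [← eq_inv_of_mul_eq_one_right h9]
      exact c.2
    have h10 : residue V₁ ⟨((a : K) * z)⁻¹, h8⟩ = 1 := by
      have h11 : residue V₁ ((⟨a, hV a.2⟩ : V₁) * ⟨z, hz⟩) *
          residue V₁ ⟨((a : K) * z)⁻¹, h8⟩ = 1 := by
        rw [← map_mul, ← map_one (residue V₁)]
        congr 1
        exact Subtype.ext (mul_inv_cancel₀ h7)
      rw [hb', one_mul] at h11
      exact h11
    have h12 : ((a : K) * z)⁻¹ ∈ V := by
      rw [← mem_img hV h8, h10]
      exact (img hV).one_mem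
    refine isUnit_iff_exists_inv.2 ⟨⟨z * ((a : K) * z)⁻¹, V.mul_mem _ _ hzV h12⟩, Subtype.ext ?_⟩
    change (a : K) * (z * ((a : K) * z)⁻¹) = 1
    rw [← mul_assoc, mul_inv_cancel₀ h7]
  have hsurj : Function.Surjective g := by
    intro w
    obtain ⟨⟨w', hw'⟩, rfl⟩ := residue_surjective (R := img hV) w
    obtain ⟨z, hz, hzV, hzw⟩ := hw'
    refine ⟨⟨z, hzV⟩, ?_⟩
    change residue (img hV) _ = residue (img hV) _
    congr 1
    exact Subtype.ext hzw
  let G : ResidueField V →+* ResidueField (img hV) := IsLocalRing.ResidueField.lift g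
  have hG : ∀ z : V, G (residue V z) = g z := fun z => rfl
  have hGsurj : Function.Surjective G := by
    intro w
    obtain ⟨z, hz⟩ := hsurj w
    exact ⟨residue V z, hz⟩
  let _ : Algebra k (ResidueField V) := (resHom V hk).toAlgebra
  let _ : Algebra k (ResidueField (img hV)) := ((residue (img hV)).comp
        ((algebraMap k (ResidueField V₁)).codRestrict (img hV).toSubring hk')).toAlgebra
  let G' : ResidueField V →ₐ[k] ResidueField (img hV) :=
    { G with commutes' := fun c => rfl }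
  have h1 := _root_.lift_trdeg_le_of_surjective G' hGsurj
  rw [Cardinal.lift_id, Cardinal.lift_id] at h1
  exact h1

/-- An elementary step. -/
theorem good_adj {d : ℕ} (hd : LUD.{u} d) (hK : Algebra.trdeg k K < Cardinal.aleph0)
    {V V₁ : ValuationSubring K} (hV : V ≤ V₁) (hk : ∀ c : k, algebraMap k K c ∈ V)
    (hk₁ : ∀ c : k, algebraMap k K c ∈ V₁)
    (hadj : ∀ U : ValuationSubring K, V ≤ U → U ≤ V₁ → U = V ∨ U = V₁)
    (hdrop : resTr V₁ hk₁ ≤ resTr V hk + d) (h1 : Good (algebraMap k K) V₁) :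
    Good (algebraMap k K) V := by
  obtain ⟨m, t, hm, ht⟩ := exists_basis V hk ((resTr_le _ _).trans_lt hK)
  obtain ⟨t', -, ht'⟩ := img_units hV hk₁ t ht
  obtain ⟨hk', hle⟩ := img_resTr hV hk hk₁
  refine good_comp (hj_field k) (algebraMap k K) hk₁ (cmp_img hV) h1 ?_
  rw [hm] at hdrop hle
  let _ := (resHom V₁ hk₁).toAlgebra
  exact good_step_one hd (img hV) hk' (img_rank hV hadj) m t' ht' hle hdrop

end res

end Pool.Agent.K6.H34.LU
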