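import Pool.Agent.R187.CT.Base

/-!
# Log uniformization: change of the ground field and restriction to subfields
-/

set_option autoImplicit false
set_option linter.unusedVariables false
set_option linter.unusedSectionVars false

universe u

namespace Pool.Agent.K6.H34.LU

open IsLocalRing Pool.Agent.W418.LU2 Pool.Agent.TH188.QS Pool.Agent.H176.DT Pool.Agent.R187.CT

/-- Restriction to subfields. -/
theorem gp_map {E F : Type u} [Field E] [Field F] (f : E →+* F) (V : ValuationSubring F)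
    {A : Subring E} (h : GP (V.comap f) A) : GP V (A.map f) := by
  intro G H hG hH hGF hHF
  have hfr : ∀ z : F, Fr (A.map f) z → ∃ w : E, f w = z ∧ Fr A w := by
    rintro z ⟨_, ⟨a, ha, rfl⟩, _, ⟨b, hb, rfl⟩, hb0, rfl⟩
    refine ⟨a * b⁻¹, by rw [map_mul, map_inv₀], a, ha, b, hb, ?_, rfl⟩
    rintro rfl
    exact hb0 (map_zero f)
  have hinj : ∀ s : Set E, Set.InjOn f s := fun s => f.injective.injOn
  obtain ⟨ι, _, x, P, g, hreg, ⟨hgA, hg0, T, hTf, hT, hP⟩, hgm, hG', hH'⟩ :=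
    h (f ⁻¹' G) (f ⁻¹' H) (hG.preimage (hinj _)) (hH.preimage (hinj _)) (by
      intro w hw
      obtain ⟨h1, h2⟩ := hGF (f w) hw
      obtain ⟨w', hw', hFr⟩ := hfr _ h2
      rw [f.injective hw'] at hFr
      refine ⟨?_, hFr⟩
      rintro rfl
      exact h1 (map_zero f)) (by
      intro w hw
      obtain ⟨h1, h2⟩ := hHF (f w) hw
      obtain ⟨w', hw', hFr⟩ := hfr _ h2
      rw [f.injective hw'] at hFr
      exact ⟨h1, hFr⟩)
  subst hP
  have hAA : ∀ e, f e ∈ V.toSubring ↔ e ∈ (V.comap f).toSubring := fun e => Iff.rfl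
  have hmap : (Subring.closure ((A : Set E) ∪ T)).map f =
      Subring.closure ((A.map f : Set F) ∪ f '' T) := by
    rw [RingHom.map_closure, Set.image_union]
    rfl
  have hreg' := RegP.map f hAA hreg
  have hlo := lo_map f hAA (Subring.closure ((A : Set E) ∪ T))
  have hpm : ∀ w, PMon (lo (V.comap f).toSubring (Subring.closure ((A : Set E) ∪ T))) x w →
      PMon (lo V.toSubring ((Subring.closure ((A : Set E) ∪ T)).map f)) (fun i => f (x i)) (f w) := by
    rintro w ⟨v, v0, v1, v2, δ, rfl⟩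
    rw [hlo]
    refine ⟨f v, (map_ne_zero f).2 v0, ⟨v, v1, rfl⟩, ⟨v⁻¹, v2, map_inv₀ f v⟩, δ, ?_⟩
    rw [map_mul]
    congr 1
    unfold mo
    rw [map_prod]
    exact Finset.prod_congr rfl fun i _ => map_zpow₀ f _ _
  refine ⟨ι, inferInstance, fun i => f (x i),
    lo V.toSubring ((Subring.closure ((A : Set E) ∪ T)).map f), f g, hreg',
    ⟨⟨g, hgA, rfl⟩, (map_ne_zero f).2 hg0, f '' T, hTf.image _, ?_, by rw [hmap]⟩, hpm g hgm, ?_, ?_⟩
  · rintro _ ⟨t, ht, rfl⟩
    refine ⟨(hT t ht).1, t * g, (hT t ht).2, map_mul f t g⟩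
  · intro z hz
    obtain ⟨w, rfl, -⟩ := hfr z (hGF z hz).2
    exact hpm w (hG' w hz)
  · intro z hz
    obtain ⟨w, rfl, -⟩ := hfr z (hHF z hz).2
    rw [hlo]
    exact ⟨w, hH' w hz, rfl⟩

/-- The local ring at the centre determines the property. -/
theorem gp_unloc {K : Type u} [Field K] {V : ValuationSubring K} {A B : Subring K}
    (hA : A ≤ V.toSubring) (hAB : A ≤ B) (hBA : B ≤ lo V.toSubring A) (h : GP V B) : GP V A := by
  classical
  intro G H hG hH hGF hHF
  obtain ⟨ι, _, x, P, g, hreg, ⟨hgB, hg0, T, hTf, hT, hP⟩, hgm, hG', hH'⟩ :=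
    h G H hG hH (fun z hz => ⟨(hGF z hz).1, fr_mono hAB (hGF z hz).2⟩)
      fun z hz => ⟨(hHF z hz).1, fr_mono hAB (hHF z hz).2⟩
  have hden : ∀ Z : Set K, Z.Finite → (∀ z ∈ Z, z ∈ lo V.toSubring A) →
      ∃ s ∈ A, s ≠ 0 ∧ s⁻¹ ∈ V ∧ ∀ z ∈ Z, s * z ∈ A := by
    intro Z hZ
    induction Z, hZ using Set.Finite.induction_on with
    | empty => exact fun _ => ⟨1, A.one_mem, one_ne_zero, by rw [inv_one]; exact V.one_mem,
        fun z hz => hz.elim⟩
    | @insert a Z ha hZ ih =>
      intro hz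
      obtain ⟨s, hs, hs0, hsV, hsZ⟩ := ih fun z h => hz z (Set.mem_insert_of_mem _ h)
      obtain ⟨c, hc, d, hd, hd0, hdV, rfl⟩ := hz a (Set.mem_insert _ _)
      refine ⟨s * d, A.mul_mem hs hd, mul_ne_zero hs0 hd0, ?_, ?_⟩
      · rw [mul_inv]
        exact V.mul_mem _ _ hsV hdV
      · rintro u (rfl | hu)
        · have h1 : s * d * (c * d⁻¹) = s * c := by field_simp
          rw [h1]
          exact A.mul_mem hs hc
        · have h1 : s * d * u = d * (s * u) := by ring
          rw [h1]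
          exact A.mul_mem hd (hsZ u hu)
  obtain ⟨s, hsA, hs0, hsV, hs⟩ := hden ({g} ∪ (fun t => t * g) '' T)
    ((Set.finite_singleton g).union (hTf.image _)) (by
      rintro z (hz | ⟨t, ht, rfl⟩)
      · rw [Set.mem_singleton_iff.1 hz]
        exact hBA hgB
      · exact hBA (hT t ht).2)
  have hcl : Subring.closure ((A : Set K) ∪ T) ≤ V.toSubring := by
    rw [Subring.closure_le]
    rintro z (hz | hz)
    · exact hA hz
    · exact (hT z hz).1
  have hPA : P = lo V.toSubring (Subring.closure ((A : Set K) ∪ T)) := by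
    rw [hP]
    apply le_antisymm
    · refine lo_le_lo hcl ?_
      rw [Subring.closure_le]
      rintro z (hz | hz)
      · exact lo_mono (fun a ha => Subring.subset_closure (Or.inl ha)) (hBA hz)
      · exact le_lo _ _ (Subring.subset_closure (Or.inr hz))
    · exact lo_mono (Subring.closure_mono (Set.union_subset_union_left _ hAB))
  have hsP : s ∈ P := by
    rw [hPA]
    exact le_lo _ _ (Subring.subset_closure (Or.inl hsA))
  have hsP' : s⁻¹ ∈ P := hreg.inv s hsP hs0 hsV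
  refine ⟨ι, inferInstance, x, P, s * g, hreg, ⟨hs g (Or.inl rfl), mul_ne_zero hs0 hg0, T, hTf,
    fun t ht => ⟨(hT t ht).1, ?_⟩, hPA⟩, ?_, hG', hH'⟩
  · have h1 : t * (s * g) = s * (t * g) := by ring
    rw [h1]
    exact hs _ (Or.inr ⟨t, ht, rfl⟩)
  · exact PMon.mul hreg.ne ⟨s, hs0, hsP, hsP', 0, by rw [mo_zero, mul_one]⟩ hgm

end Pool.Agent.K6.H34.LU
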