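import Pool.Agent.K6.H34.LU.A

/-!
# Log uniformization in low relative dimension
-/

set_option autoImplicit false
set_option linter.unusedVariables false
set_option linter.unusedSectionVars false

universe u

namespace Pool.Agent.K6.H34.LU

open IsLocalRing Pool.Agent.W418.LU2 Pool.Agent.TH188.QS Pool.Agent.H176.DT Pool.Agent.R187.CT

/-- Log uniformization for the valuations of rank one of the varieties of dimension at most `d`
whose residue fields are algebraic over the ground field. -/
def LUD (d : ℕ) : Prop :=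
  ∀ (k F : Type u) [Field k] [Field F] [Algebra k F] (V : ValuationSubring F)
    (A : Subalgebra k F), A.FG → (∀ z : F, Fr A.toSubring z) → A.toSubring ≤ V.toSubring →
    Algebra.trdeg k F ≤ d → V ≠ ⊤ → (∀ V' : ValuationSubring F, V ≤ V' → V' = V ∨ V' = ⊤) →
    (∀ z ∈ V, ∃ P : Polynomial k, P ≠ 0 ∧ V.valuation (Polynomial.aeval z P) < 1) →
    LogUnif V A.toSubring

theorem hj_field (k : Type u) [Field k] : HJ k := by
  refine BR.hj ?_
  intro 𝔭 h𝔭
  have h1 : 𝔭.IsMaximal := by
    rcases Ideal.eq_bot_or_top 𝔭 with h2 | h2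
    · rw [h2]; exact Ideal.bot_isMaximal
    · exact absurd h2 h𝔭.ne_top
  exact Or.inl ((Ideal.Quotient.maximal_ideal_iff_isField_quotient 𝔭).1 h1)

/-- A valuation whose residue field has large transcendence degree. -/
theorem good_step {d : ℕ} {k F : Type u} [Field k] [Field F] [Algebra k F]
    (W : ValuationSubring F) (m : ℕ) (t : Fin m → F)
    (ht : ∀ P : MvPolynomial (Fin m) k, P ≠ 0 →
      MvPolynomial.aeval t P ∈ W ∧ (MvPolynomial.aeval t P)⁻¹ ∈ W ∧ MvPolynomial.aeval t P ≠ 0)
    (htr : Algebra.trdeg k F ≤ m + d)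
    (hd : ∀ (E : IntermediateField (IntermediateField.adjoin k (Set.range t)) F)
      (B : Subalgebra (IntermediateField.adjoin k (Set.range t)) E), B.FG →
      (∀ z : E, Fr B.toSubring z) → B.toSubring ≤ (W.comap (E.val : E →+* F)).toSubring →
      Algebra.trdeg (IntermediateField.adjoin k (Set.range t)) E ≤ d →
      LogUnif (W.comap (E.val : E →+* F)) B.toSubring) : Good (algebraMap k F) W := by
  classical
  have hai : AlgebraicIndependent k t := by
    rw [algebraicIndependent_iff]
    intro P hP
    by_contra h0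
    exact (ht P h0).2.2 hP
  have htW : ∀ i, t i ∈ W := by
    intro i
    have h := (ht (MvPolynomial.X i) (MvPolynomial.X_ne_zero i)).1
    rwa [MvPolynomial.aeval_X] at h
  have hkW : ∀ c : k, algebraMap k F c ∈ W := by
    intro c
    by_cases hc : c = 0
    · rw [hc, map_zero]
      exact W.zero_mem
    · have h := (ht (MvPolynomial.C c) (by
        rw [Ne, MvPolynomial.C_eq_zero]
        exact hc)).1
      rwa [MvPolynomial.aeval_C] at h
  have hRf : (Set.range t).Finite := Set.finite_range t
  refine ⟨Set.range t, hRf, fun T hT hTW hTF => ?_⟩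
  refine gp_move hRf (fun u hu => ⟨?_, hTF u hu⟩) ?_
  · obtain ⟨i, rfl⟩ := hu
    exact htW i
  rw [closure_closure_union, Set.union_assoc]
  set A := Subring.closure (((algebraMap k F).range : Set F) ∪ (T ∪ Set.range t)) with hA
  have hAW : A ≤ W.toSubring := by
    rw [hA, Subring.closure_le]
    rintro z (hz | hz | ⟨i, rfl⟩)
    · exact hTW (Subring.subset_closure (Or.inl hz))
    · exact hTW (Subring.subset_closure (Or.inr hz))
    · exact htW i
  let k' : IntermediateField k F := IntermediateField.adjoin k (Set.range t)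
  let E : IntermediateField k' F := IntermediateField.adjoin k' T
  have hTE : ∀ z ∈ T, z ∈ E := fun z hz => IntermediateField.subset_adjoin _ _ hz
  let T' : Set E := {e | (e : F) ∈ T}
  have hT'f : T'.Finite := hT.preimage Subtype.val_injective.injOn
  let B : Subalgebra k' E := Algebra.adjoin k' T'
  -- the ground field
  have hk'lo : ∀ z : k', (z : F) ∈ lo W.toSubring A := by
    rintro ⟨z, hz⟩
    have hz' : z ∈ IntermediateField.adjoin k (Set.range t) := hz
    rw [IntermediateField.mem_adjoin_range_iff] at hz'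
    obtain ⟨P, Q, hPQ⟩ := hz'
    change z ∈ _
    have hpoly : ∀ P : MvPolynomial (Fin m) k, MvPolynomial.aeval t P ∈ A := by
      intro P
      induction P using MvPolynomial.induction_on with
      | C a =>
        rw [MvPolynomial.aeval_C]
        exact Subring.subset_closure (Or.inl ⟨a, rfl⟩)
      | add p q hp hq =>
        rw [map_add]
        exact A.add_mem hp hq
      | mul_X p i hp =>
        rw [map_mul, MvPolynomial.aeval_X]
        exact A.mul_mem hp (Subring.subset_closure (Or.inr (Or.inr ⟨i, rfl⟩)))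
    by_cases hQ : Q = 0
    · rw [hPQ, hQ, map_zero, div_zero]
      exact Subring.zero_mem _
    · exact ⟨_, hpoly P, _, hpoly Q, (ht Q hQ).2.2, (ht Q hQ).2.1, by rw [hPQ, div_eq_mul_inv]⟩
  have hloW : lo W.toSubring A ≤ W.toSubring := lo_le hAW
  -- the model
  have hBmap : B.toSubring.map (E.val : E →+* F) =
      Subring.closure (((algebraMap k' F).range : Set F) ∪ T) := by
    have h1 : B.toSubring = Subring.closure (Set.range (algebraMap k' E) ∪ T') := by
      rw [← Algebra.adjoin_eq_ring_closure]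
    rw [h1, RingHom.map_closure, Set.image_union]
    congr 2
    · ext z
      constructor
      · rintro ⟨_, ⟨a, rfl⟩, rfl⟩
        exact ⟨a, rfl⟩
      · rintro ⟨a, rfl⟩
        exact ⟨_, ⟨a, rfl⟩, rfl⟩
    · ext z
      constructor
      · rintro ⟨e, he, rfl⟩
        exact he
      · intro hz
        exact ⟨⟨z, hTE z hz⟩, hz, rfl⟩
  have hBlo : B.toSubring.map (E.val : E →+* F) ≤ lo W.toSubring A := by
    rw [hBmap, Subring.closure_le]
    rintro z (⟨a, rfl⟩ | hz)
    · exact hk'lo a
    · exact le_lo _ _ (Subring.subset_closure (Or.inr (Or.inl hz)))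
  have hAB : A ≤ B.toSubring.map (E.val : E →+* F) := by
    rw [hBmap, hA, Subring.closure_le]
    rintro z (⟨a, rfl⟩ | hz | ⟨i, rfl⟩)
    · exact Subring.subset_closure (Or.inl ⟨algebraMap k k' a, rfl⟩)
    · exact Subring.subset_closure (Or.inr hz)
    · exact Subring.subset_closure (Or.inl ⟨⟨t i, IntermediateField.subset_adjoin _ _ ⟨i, rfl⟩⟩,
        rfl⟩)
  refine gp_unloc hAW hAB hBlo (gp_map (E.val : E →+* F) W ?_)
  have hBW : B.toSubring ≤ (W.comap (E.val : E →+* F)).toSubring := by
    intro b hb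
    exact hloW (hBlo ⟨b, hb, rfl⟩)
  have hBfr : ∀ z : E, Fr B.toSubring z := by
    rintro ⟨z, hz⟩
    have hz' : z ∈ IntermediateField.adjoin k' T := hz
    rw [IntermediateField.mem_adjoin_iff_div] at hz'
    obtain ⟨r, hr, s, hs, hrs⟩ := hz'
    have hin : ∀ x ∈ Algebra.adjoin k' T, ∃ b ∈ B, ((b : E) : F) = x := by
      intro x hx
      have h1 : (Algebra.adjoin k' T').map E.val = Algebra.adjoin k' T := by
        rw [AlgHom.map_adjoin]
        congr 1
        ext y
        constructor
        · rintro ⟨e, he, rfl⟩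
          exact he
        · intro hy
          exact ⟨⟨y, hTE y hy⟩, hy, rfl⟩
      rw [← h1] at hx
      obtain ⟨b, hb, hbx⟩ := hx
      exact ⟨b, hb, hbx⟩
    obtain ⟨b, hb, hbr⟩ := hin r hr
    obtain ⟨c, hc, hcs⟩ := hin s hs
    by_cases hc0 : c = 0
    · refine ⟨0, B.zero_mem, 1, B.one_mem, one_ne_zero, Subtype.ext ?_⟩
      change z = _
      rw [hrs, ← hcs, hc0]
      simp
    · refine ⟨b, hb, c, hc, hc0, Subtype.ext ?_⟩
      change z = _
      rw [hrs, ← hbr, ← hcs, div_eq_mul_inv]
      rfl
  have hBFG : B.FG := by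
    refine ⟨hT'f.toFinset, ?_⟩
    rw [Set.Finite.coe_toFinset]
  have hft : Algebra.FiniteType k' B := (Subalgebra.fg_iff_finiteType B).1 hBFG
  have hnoe : IsNoetherianRing B := Algebra.FiniteType.isNoetherianRing k' B
  have hnoe' : IsNoetherianRing B.toSubring := hnoe
  have htrE : Algebra.trdeg k' E ≤ d := by
    have h1 : Algebra.trdeg k' E ≤ Algebra.trdeg k' F :=
      _root_.trdeg_le_of_injective E.val E.val.injective
    have h2 : Algebra.trdeg k k' + Algebra.trdeg k' F = Algebra.trdeg k F :=
      _root_.trdeg_add_eq k k'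
    have h3 : (m : Cardinal.{u}) ≤ Algebra.trdeg k k' := by
      let t' : Fin m → k' := fun i => ⟨t i, IntermediateField.subset_adjoin _ _ ⟨i, rfl⟩⟩
      have h4 : AlgebraicIndependent k t' := by
        refine AlgebraicIndependent.of_comp k'.val ?_
        exact hai
      have h5 := h4.lift_cardinalMk_le_trdeg
      simpa using h5
    have h4 : (m : Cardinal.{u}) + Algebra.trdeg k' E ≤ m + d :=
      ((add_le_add h3 h1).trans h2.le).trans htr
    rw [add_comm (m : Cardinal.{u}), add_comm (m : Cardinal.{u})] at h4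
    exact (Cardinal.add_le_add_iff_of_lt_aleph0 (Cardinal.natCast_lt_aleph0 (n := m))).1 h4
  exact gp_of_logUnif ⟨hBW, hBfr⟩ (hd E B hBFG hBfr hBW htrE)

/-- The archimedean property of a valuation of rank one. -/
lemma arch {F : Type u} [Field F] (W : ValuationSubring F)
    (h1 : ∀ W' : ValuationSubring F, W ≤ W' → W' = W ∨ W' = ⊤) {v : F} (hv : v ∈ W)
    (hv' : v⁻¹ ∉ W) (z : F) : ∃ N : ℕ, z * v ^ N ∈ W := by
  let S : Subring F :=
    { carrier := {z | ∃ N : ℕ, z * v ^ N ∈ W}
      mul_mem' := by
        rintro a b ⟨N, hN⟩ ⟨M, hM⟩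
        refine ⟨N + M, ?_⟩
        have h2 : a * b * v ^ (N + M) = (a * v ^ N) * (b * v ^ M) := by ring
        rw [h2]
        exact W.mul_mem _ _ hN hM
      one_mem' := ⟨0, by rw [pow_zero, mul_one]; exact W.one_mem⟩
      add_mem' := by
        rintro a b ⟨N, hN⟩ ⟨M, hM⟩
        refine ⟨N + M, ?_⟩
        have h2 : (a + b) * v ^ (N + M) = (a * v ^ N) * v ^ M + (b * v ^ M) * v ^ N := by ring
        rw [h2]
        exact W.add_mem _ _ (W.mul_mem _ _ hN (pow_mem hv _)) (W.mul_mem _ _ hM (pow_mem hv _))
      zero_mem' := ⟨0, by rw [zero_mul]; exact W.zero_mem⟩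
      neg_mem' := by
        rintro a ⟨N, hN⟩
        refine ⟨N, ?_⟩
        rw [neg_mul]
        exact W.neg_mem _ hN }
  have hWS : W.toSubring ≤ S := fun z hz => ⟨0, by rw [pow_zero, mul_one]; exact hz⟩
  have hv0 : v ≠ 0 := by
    rintro rfl
    apply hv'
    rw [inv_zero]
    exact W.zero_mem
  have hvS : v⁻¹ ∈ S := ⟨1, by rw [pow_one, inv_mul_cancel₀ hv0]; exact W.one_mem⟩
  rcases h1 (ValuationSubring.ofLE W S hWS) (fun z hz => hWS hz) with h | h
  · exfalso
    apply hv'
    rw [← h]
    exact hvS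
  · have h2 : z ∈ ValuationSubring.ofLE W S hWS := by
      rw [h]
      trivial
    exact h2

/-- The restriction of a valuation of rank at most one has rank at most one. -/
lemma rank_comap {E F : Type u} [Field E] [Field F] (f : E →+* F) (W : ValuationSubring F)
    (h1 : ∀ W' : ValuationSubring F, W ≤ W' → W' = W ∨ W' = ⊤) (U : ValuationSubring E)
    (hU : W.comap f ≤ U) : U = W.comap f ∨ U = ⊤ := by
  by_cases h : U ≤ W.comap f
  · exact Or.inl (le_antisymm h hU)
  · right
    obtain ⟨w, hwU, hw⟩ := SetLike.not_le_iff_exists.1 h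
    have hw0 : w ≠ 0 := by
      rintro rfl
      exact hw (W.comap f).zero_mem
    have h2 : w⁻¹ ∈ W.comap f := ((W.comap f).mem_or_inv_mem w).resolve_left hw
    have h3 : (f w)⁻¹ ∈ W := by
      rw [← map_inv₀]
      exact h2
    refine top_unique fun z _ => ?_
    obtain ⟨N, hN⟩ := arch W h1 h3 (by rw [inv_inv]; exact hw) (f z)
    have h4 : z * (w⁻¹) ^ N ∈ W.comap f := by
      change f _ ∈ W
      rw [map_mul, map_pow, map_inv₀]
      exact hN
    have h5 : z = (z * (w⁻¹) ^ N) * w ^ N := by
      rw [mul_assoc, ← mul_pow, inv_mul_cancel₀ hw0, one_pow, mul_one]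
    rw [h5]
    exact U.mul_mem _ _ (hU h4) (pow_mem hwU _)

/-- The trivial valuation. -/
lemma logUnif_top {k E : Type u} [Field k] [Field E] [Algebra k E] (B : Subalgebra k E)
    (hB : B.FG) : LogUnif (⊤ : ValuationSubring E) B.toSubring := by
  have hft : Algebra.FiniteType k B := (Subalgebra.fg_iff_finiteType B).1 hB
  have hnoe : IsNoetherianRing B := Algebra.FiniteType.isNoetherianRing k B
  have hnoe' : IsNoetherianRing B.toSubring := hnoe
  have h1 : B.toSubring ≤ (⊤ : ValuationSubring E).toSubring := fun _ _ => trivial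
  exact (gp_trivial h1 fun _ _ _ => trivial).logUnif h1

/-- A valuation of rank one. -/
theorem good_step_one {d : ℕ} (hd : LUD.{u} d) {k F : Type u} [Field k] [Field F] [Algebra k F]
    (W : ValuationSubring F) (hk : ∀ c : k, algebraMap k F c ∈ W)
    (h1 : ∀ W' : ValuationSubring F, W ≤ W' → W' = W ∨ W' = ⊤) (m : ℕ) (t : Fin m → F)
    (ht : ∀ P : MvPolynomial (Fin m) k, P ≠ 0 →
      MvPolynomial.aeval t P ∈ W ∧ (MvPolynomial.aeval t P)⁻¹ ∈ W ∧ MvPolynomial.aeval t P ≠ 0)
    (hm : @Algebra.trdeg k (ResidueField W) _ _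
      ((residue W).comp ((algebraMap k F).codRestrict W.toSubring hk)).toAlgebra ≤ m)
    (htr : Algebra.trdeg k F ≤ m + d) : Good (algebraMap k F) W := by
  refine good_step W m t ht htr fun E B hB hfr hBW htrE => ?_
  by_cases htop : W.comap (E.val : E →+* F) = ⊤
  · rw [htop]
    exact logUnif_top B hB
  refine hd _ E (W.comap (E.val : E →+* F)) B hB hfr hBW htrE htop
    (fun U hU => rank_comap _ W h1 U hU) fun z hz => ?_
  -- the residue field is algebraic over the ground field
  let k' : IntermediateField k F := IntermediateField.adjoin k (Set.range t)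
  have hk'W : ∀ z : k', algebraMap k' F z ∈ W := by
    rintro ⟨z, hz⟩
    have hz' : z ∈ IntermediateField.adjoin k (Set.range t) := hz
    rw [IntermediateField.mem_adjoin_range_iff] at hz'
    obtain ⟨P, Q, hPQ⟩ := hz'
    change z ∈ _
    by_cases hP : P = 0
    · rw [hPQ, hP, map_zero, zero_div]
      exact W.zero_mem
    by_cases hQ : Q = 0
    · rw [hPQ, hQ, map_zero, div_zero]
      exact W.zero_mem
    · rw [hPQ, div_eq_mul_inv]
      exact W.mul_mem _ _ (ht P hP).1 (ht Q hQ).2.1
  let φ : k' →+* W := (algebraMap k' F).codRestrict W.toSubring hk'W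
  let _ : Algebra k (ResidueField W) :=
    ((residue W).comp ((algebraMap k F).codRestrict W.toSubring hk)).toAlgebra
  let _ : Algebra k' (ResidueField W) := ((residue W).comp φ).toAlgebra
  have : IsScalarTower k k' (ResidueField W) := IsScalarTower.of_algebraMap_eq fun c => rfl
  have h3 : (m : Cardinal.{u}) ≤ Algebra.trdeg k k' := by
    let t' : Fin m → k' := fun i => ⟨t i, IntermediateField.subset_adjoin _ _ ⟨i, rfl⟩⟩
    have h4 : AlgebraicIndependent k t' := by
      refine AlgebraicIndependent.of_comp k'.val ?_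
      rw [algebraicIndependent_iff]
      intro P hP
      by_contra h0
      exact (ht P h0).2.2 hP
    have h5 := h4.lift_cardinalMk_le_trdeg
    simpa using h5
  have hfs : FaithfulSMul k' (ResidueField W) :=
    (faithfulSMul_iff_algebraMap_injective k' (ResidueField W)).2 (RingHom.injective _)
  have h4 : Algebra.trdeg k k' + Algebra.trdeg k' (ResidueField W) =
      Algebra.trdeg k (ResidueField W) := _root_.trdeg_add_eq k k'
  have h5 : Algebra.trdeg k' (ResidueField W) = 0 := by
    have h6 : (m : Cardinal.{u}) + Algebra.trdeg k' (ResidueField W) ≤ m + 0 := by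
      rw [add_zero]
      exact ((add_le_add_left h3 _).trans h4.le).trans hm
    rw [add_comm (m : Cardinal.{u}), add_comm (m : Cardinal.{u})] at h6
    exact le_zero_iff.1
      ((Cardinal.add_le_add_iff_of_lt_aleph0 (Cardinal.natCast_lt_aleph0 (n := m))).1 h6)
  have h6 : Algebra.IsAlgebraic k' (ResidueField W) := _root_.trdeg_eq_zero_iff.1 h5
  have hzW : (z : F) ∈ W := hz
  obtain ⟨P, hP0, hP⟩ := h6.isAlgebraic (residue W ⟨z, hzW⟩)
  refine ⟨P, hP0, ?_⟩
  have h7 : Polynomial.aeval (z : F) P = W.subtype (Polynomial.eval₂ φ ⟨z, hzW⟩ P) := by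
    rw [Polynomial.hom_eval₂]
    rfl
  have h8 : residue W (Polynomial.eval₂ φ ⟨z, hzW⟩ P) = 0 := by
    rw [Polynomial.hom_eval₂]
    exact hP
  have h9 : W.valuation (Polynomial.aeval (z : F) P) < 1 := by
    rw [h7]
    exact (W.valuation_lt_one_iff _).1 ((residue_eq_zero_iff _).1 h8)
  have h10 : ((Polynomial.aeval z P : E) : F) = Polynomial.aeval (z : F) P := by
    rw [← IntermediateField.coe_val, Polynomial.aeval_algHom_apply]
  rw [← h10] at h9
  by_contra hcon
  push Not at hcon
  have h11 := (comap_le (E.val : E →+* F) W 1 (Polynomial.aeval z P)).1 (by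
    rw [map_one]
    exact hcon)
  rw [map_one, map_one] at h11
  exact absurd h9 (not_lt.2 h11)

end Pool.Agent.K6.H34.LU
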