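import Pool.Agent.K6.H34.LU.D

/-!
# Valuations whose components of rank one have small relative dimension
-/

set_option autoImplicit false
set_option linter.unusedVariables false
set_option linter.unusedSectionVars false

universe u

namespace Pool.Agent.K6.H34.LU

open IsLocalRing Pool.Agent.W418.LU2 Pool.Agent.TH188.QS Pool.Agent.H176.DT Pool.Agent.R187.CT

variable {k K : Type u} [Field k] [Field K] [Algebra k K]

/-- There is no valuation ring strictly between `U` and `U'`. -/
def Adj (U U' : ValuationSubring K) : Prop :=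
  U < U' ∧ ∀ U'' : ValuationSubring K, U ≤ U'' → U'' ≤ U' → U'' = U ∨ U'' = U'

theorem good_between {d : ℕ} (hd : LUD.{u} d) (hK : Algebra.trdeg k K < Cardinal.aleph0)
    (V : ValuationSubring K) (hk : ∀ U : ValuationSubring K, V ≤ U → ∀ c : k, algebraMap k K c ∈ U)
    (hdrop : ∀ (U U' : ValuationSubring K) (hU : V ≤ U) (hU' : V ≤ U'), Adj U U' →
      resTr U' (hk U' hU') ≤ resTr U (hk U hU) + d) (j : ℕ) :
    ∀ (U U' : ValuationSubring K) (hU : V ≤ U) (hUU : U ≤ U') (a b : ℕ),
      resTr U' (hk U' (hU.trans hUU)) = a → resTr U (hk U hU) = b → a - b ≤ j →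
      Good (algebraMap k K) U' → Good (algebraMap k K) U := by
  have hfin : ∀ (U : ValuationSubring K) (hU : V ≤ U), ∃ m : ℕ, resTr U (hk U hU) = m :=
    fun U hU => Cardinal.lt_aleph0.1 ((resTr_le _ _).trans_lt hK)
  have hlt : ∀ {U U' : ValuationSubring K} (h : U < U') (hU : V ≤ U) (hU' : V ≤ U') {a b : ℕ},
      resTr U' (hk U' hU') = a → resTr U (hk U hU) = b → b < a := by
    intro U U' h hU hU' a b ha hb
    have h1 := resTr_lt h (hk U hU) (hk U' hU')
    rw [ha, hb] at h1
    have h2 : b + 1 ≤ a := by exact_mod_cast h1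
    exact h2
  induction j with
  | zero =>
    intro U U' hU hUU a b ha hb hab h1
    rcases hUU.eq_or_lt with h | h
    · subst h
      exact h1
    · have h2 := hlt h hU (hU.trans hUU) ha hb
      omega
  | succ j ih =>
    intro U U' hU hUU a b ha hb hab h1
    rcases hUU.eq_or_lt with h | h
    · subst h
      exact h1
    by_cases hadj : ∃ U'' : ValuationSubring K, U < U'' ∧ U'' < U'
    · obtain ⟨U'', h2, h3⟩ := hadj
      obtain ⟨c, hc⟩ := hfin U'' (hU.trans h2.le)
      have h4 := hlt h2 hU (hU.trans h2.le) hc hb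
      have h5 := hlt h3 (hU.trans h2.le) (hU.trans hUU) ha hc
      exact ih U U'' hU h2.le c b hc hb (by omega)
        (ih U'' U' (hU.trans h2.le) h3.le a c ha hc (by omega) h1)
    · push Not at hadj
      have h2 : ∀ U'' : ValuationSubring K, U ≤ U'' → U'' ≤ U' → U'' = U ∨ U'' = U' := by
        intro U'' h3 h4
        rcases h3.eq_or_lt with h5 | h5
        · exact Or.inl h5.symm
        · right
          rcases h4.eq_or_lt with h6 | h6
          · exact h6
          · exact absurd h6 (hadj U'' h5)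
      exact good_adj hd hK hUU (hk U hU) (hk U' (hU.trans hUU)) h2
        (hdrop U U' hU (hU.trans hUU) ⟨h, h2⟩) h1

/-- The main theorem. -/
theorem good_components {d : ℕ} (hd : LUD.{u} d) (hK : Algebra.trdeg k K < Cardinal.aleph0)
    (V : ValuationSubring K) (hk : ∀ U : ValuationSubring K, V ≤ U → ∀ c : k, algebraMap k K c ∈ U)
    (hdrop : ∀ (U U' : ValuationSubring K) (hU : V ≤ U) (hU' : V ≤ U'), Adj U U' →
      resTr U' (hk U' hU') ≤ resTr U (hk U hU) + d) : Good (algebraMap k K) V := by
  obtain ⟨a, ha⟩ := Cardinal.lt_aleph0.1 ((resTr_le (⊤ : ValuationSubring K)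
    (hk ⊤ le_top)).trans_lt hK)
  obtain ⟨b, hb⟩ := Cardinal.lt_aleph0.1 ((resTr_le V (hk V le_rfl)).trans_lt hK)
  exact good_between hd hK V hk hdrop (a - b) V ⊤ le_rfl le_top a b ha hb le_rfl (good_top _)

end Pool.Agent.K6.H34.LU
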